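import Mathlib

set_option autoImplicit false

namespace Pool.Agent.Results.MP_8c6d5c_co.DoubleRoot

open Finset Polynomial
open scoped symmDiff

/-- A linear subspace of `2^E` under symmetric difference: the cycle space of a binary matroid. -/
def IsSpace {n : ℕ} (𝒞 : Finset (Finset (Fin n))) : Prop :=
  ∅ ∈ 𝒞 ∧ ∀ C ∈ 𝒞, ∀ D ∈ 𝒞, C ∆ D ∈ 𝒞

/-- The bicycle space of `A`: cycles `C` with `C ∩ A` in the cocycle space. -/
def bicycles {n : ℕ} (𝒞 : Finset (Finset (Fin n))) (A : Finset (Fin n)) :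
    Finset (Finset (Fin n)) :=
  {C ∈ 𝒞 | ∀ D ∈ 𝒞, Even #(C ∩ A ∩ D)}

/-- The Penrose polynomial; the dimension of a space over GF(2) is `log₂` of its size. -/
noncomputable def penrose {n : ℕ} (𝒞 : Finset (Finset (Fin n))) : ℤ[X] :=
  ∑ A : Finset (Fin n), (-1) ^ #A * X ^ Nat.log 2 #(bicycles 𝒞 A)

/-- Matroid connectivity. -/
def Connected {n : ℕ} (𝒞 : Finset (Finset (Fin n))) : Prop :=
  0 < n ∧ ¬ ∃ E₁ E₂ : Finset (Fin n), E₁.Nonempty ∧ E₂.Nonempty ∧ Disjoint E₁ E₂ ∧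
    E₁ ∪ E₂ = univ ∧ ∀ C, C ∈ 𝒞 ↔ ∃ C₁ ∈ 𝒞, ∃ C₂ ∈ 𝒞, C₁ ⊆ E₁ ∧ C₂ ⊆ E₂ ∧ C = C₁ ∪ C₂

def S (a : ℕ) : Finset (Fin 9) := {i | a.testBit i}

def cyc : List ℕ := [0, 10, 39, 45, 85, 95, 114, 120, 130, 136, 165, 175, 215, 221, 240, 250, 275, 281, 308, 318, 326, 332, 353, 363, 401, 411, 438, 444, 452, 462, 483, 489]

def M : Finset (Finset (Fin 9)) := cyc.toFinset.image S

def par (x : ℕ) : ℕ :=
  (7877703466965951741784356862959128443265788382021580589009765834561689170293574700951863729220303088751879007905492507289381878411509378061636115163081110 >>> x) % 2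

def cnt (a : ℕ) : ℕ := (cyc.filter fun c => cyc.all fun d => par (c &&& a &&& d) == 0).length

theorem S_and (a b : ℕ) : S a ∩ S b = S (a &&& b) := by
  ext i
  simp [S]

theorem S_xor (a b : ℕ) : S a ∆ S b = S (a ^^^ b) := by
  ext i
  simp only [S, mem_symmDiff, mem_filter, mem_univ, true_and, Nat.testBit_xor]
  cases a.testBit i <;> cases b.testBit i <;> simp

theorem S_inj {a b : ℕ} (ha : a < 512) (hb : b < 512) (h : S a = S b) : a = b := by
  refine Nat.eq_of_testBit_eq fun i => ?_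
  by_cases hi : i < 9
  · have := Finset.ext_iff.1 h ⟨i, hi⟩
    simpa [S] using this
  · have h1 : 512 ≤ 2 ^ i := Nat.pow_le_pow_right (show 0 < 2 by norm_num) (show 9 ≤ i by omega)
    rw [Nat.testBit_lt_two_pow (by omega), Nat.testBit_lt_two_pow (by omega)]

theorem image_S : (range 512).image S = univ := by
  apply eq_univ_of_card
  rw [card_image_of_injOn fun a ha b hb => S_inj (mem_range.1 ha) (mem_range.1 hb)]
  simp

theorem sum_S (f : Finset (Fin 9) → ℤ) : ∑ A, f A = ∑ a ∈ range 512, f (S a) := by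
  rw [← image_S, sum_image fun a ha b hb => S_inj (mem_range.1 ha) (mem_range.1 hb)]

theorem card_par : ∀ x < 512, #(S x) % 2 = par x := by decide +kernel

theorem cyc_lt : ∀ c ∈ cyc, c < 512 := by decide +kernel

theorem mem_M {a : ℕ} (ha : a < 512) : S a ∈ M ↔ a ∈ cyc := by
  simp only [M, mem_image, List.mem_toFinset]
  exact ⟨fun ⟨b, hb, e⟩ => S_inj (cyc_lt b hb) ha e ▸ hb, fun h => ⟨a, h, rfl⟩⟩

theorem card_bic (a : ℕ) : #(bicycles M (S a)) = cnt a := by
  have h1 : cyc.Nodup := by decide +kernel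
  have h2 := List.toFinset_card_of_nodup
    (h1.filter fun c => cyc.all fun d => par (c &&& a &&& d) == 0)
  rw [List.toFinset_filter] at h2
  refine Eq.trans ?_ h2
  unfold bicycles M
  rw [filter_image, card_image_of_injOn fun x hx y hy => S_inj
    (cyc_lt x (List.mem_toFinset.1 (mem_filter.1 hx).1))
    (cyc_lt y (List.mem_toFinset.1 (mem_filter.1 hy).1))]
  refine congrArg card (filter_congr fun c _ => ?_)
  simp only [forall_mem_image, List.mem_toFinset, List.all_eq_true, beq_iff_eq, S_and,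
    Nat.even_iff]
  refine forall₂_congr fun d hd => ?_
  rw [card_par _ (lt_of_le_of_lt Nat.and_le_right (cyc_lt d hd))]

theorem sign (a : ℕ) (ha : a < 512) : (-1 : ℤ) ^ #(S a) = (-1) ^ par a := by
  rw [← card_par a ha, ← neg_one_pow_eq_pow_mod_two]

theorem s0 : ∑ a ∈ range 512, (-1 : ℤ) ^ par a * 0 ^ Nat.log 2 (cnt a) = -8 := by decide +kernel

theorem s1 : ∑ a ∈ range 512, (-1 : ℤ) ^ par a = 0 := by decide +kernel

theorem s2 : ∑ a ∈ range 512, (-1 : ℤ) ^ par a * Nat.log 2 (cnt a) = 0 := by decide +kernel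

theorem conn : ∀ e < 512, e = 0 ∨ e = 511 ∨ ∃ c ∈ cyc, c &&& e ∉ cyc := by decide +kernel

theorem closed : ∀ c ∈ cyc, ∀ d ∈ cyc, c ^^^ d ∈ cyc := by decide +kernel

theorem result : ¬ ∀ (n : ℕ) (𝒞 : Finset (Finset (Fin n))), IsSpace 𝒞 → Connected 𝒞 →
    penrose 𝒞 ≠ 0 → (X - 1) ∣ penrose 𝒞 ∧ ¬ (X - 1) ^ 2 ∣ penrose 𝒞 := by
  intro h
  have h0 : penrose M ≠ 0 := fun h0 => by
    have h1 := congrArg (eval 0) h0
    simp only [penrose, eval_finsetSum, eval_mul, eval_pow, eval_neg, eval_one, eval_X,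
      eval_zero] at h1
    rw [sum_S, sum_congr rfl fun a ha => by rw [card_bic, sign a (mem_range.1 ha)], s0] at h1
    omega
  refine (h 9 M ⟨?_, ?_⟩ ⟨by decide, ?_⟩ h0).2 ?_
  · exact mem_image.2 ⟨0, by decide, by decide⟩
  · simp only [M, forall_mem_image, List.mem_toFinset, S_xor]
    exact fun c hc d hd => mem_image_of_mem _ (List.mem_toFinset.2 (closed c hc d hd))
  · rintro ⟨E₁, E₂, h1, h2, h3, h4, h5⟩
    obtain ⟨e, he, rfl⟩ := mem_image.1 (image_S ▸ mem_univ E₁)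
    rcases conn e (mem_range.1 he) with rfl | rfl | ⟨c, hc, h6⟩
    · exact absurd h1 (by decide)
    · obtain ⟨x, hx⟩ := h2
      exact disjoint_left.1 h3 ((by decide : ∀ y, y ∈ S 511) x) hx
    · obtain ⟨C₁, a1, C₂, -, a3, a4, a5⟩ := (h5 (S c)).1 ((mem_M (cyc_lt c hc)).2 hc)
      refine h6 ((mem_M (lt_of_le_of_lt Nat.and_le_left (cyc_lt c hc))).1 ?_)
      rw [← S_and, a5, union_inter_distrib_right, inter_eq_left.2 a3,
        disjoint_iff_inter_eq_empty.1 (h3.symm.mono_left a4), union_empty]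
      exact a1
  · rw [← C_1, ← le_rootMultiplicity_iff h0]
    refine (one_lt_rootMultiplicity_iff_isRoot h0).2 ⟨?_, ?_⟩
    · simp only [IsRoot, penrose, eval_finsetSum, eval_mul, eval_pow, eval_neg, eval_one, eval_X,
        one_pow, mul_one]
      rw [sum_S, sum_congr rfl fun a ha => sign a (mem_range.1 ha), s1]
    · have e : ∀ (A : Finset (Fin 9)) (d : ℕ),
          eval 1 (derivative ((-1) ^ #A * X ^ d : ℤ[X])) = (-1) ^ #A * d := fun A d => by
        rw [show ((-1) ^ #A : ℤ[X]) = C ((-1) ^ #A) by simp, derivative_C_mul_X_pow]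
        simp
      simp only [IsRoot, penrose, derivative_sum, eval_finsetSum, e]
      rw [sum_S, sum_congr rfl fun a ha => by rw [card_bic, sign a (mem_range.1 ha)], s2]

end Pool.Agent.Results.MP_8c6d5c_co.DoubleRoot
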